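import Pool.Agent.K9h46.TL.Main
import Pool.Agent.K9h46.TL.Row
import Pool.Agent.K9h46.TL.Col

/-!
# Tilings with Kurasov-Sarnak sets by functions with finite-measure support

Q1 is true for all the sets `{x | sin (π (1+α) x) = r sin (π (α-1) x)}`, `α > 0`, `|r| < 1`. They are of bounded density.
If `α` is rational or `r = 0` the set has a periodic structure. Otherwise it does not, and no nonzero integrable function
whose support has finite measure tiles with it, at any level. The starting result `KurasovSarnakSets` is for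
transcendental `r`; here `r` is arbitrary.

Proof. The exponential mean of the set at `k + m α`, `m ≥ 1`, `k ≥ 0`, tends to `α + k / m` times the coefficient of `z^k`
in `((z - r) / (1 - r z))^m`. For fixed `m` this is `r^k` times a nonzero polynomial in `k`, for fixed `k` it is `(-r)^m`
times a nonzero polynomial in `m`; so the quadrant criterion (`QuadrantCriterion`) applies.
-/

set_option autoImplicit false

open MeasureTheory Filter Topology Complex

namespace Pool.Agent.Results.MP_731e7b_an.AllKurasovSarnakSets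

/-- Bounded density: `[x, x+1)` contains at most `C` points of `L`, for every real `x`. -/
def BoundedDensity (L : Set ℝ) : Prop :=
  ∃ C : ℕ, ∀ x : ℝ, (L ∩ Set.Ico x (x + 1)).Finite ∧ (L ∩ Set.Ico x (x + 1)).ncard ≤ C

/-- `f` tiles at level `w` with translation set `L`. -/
def Tiles (f : ℝ → ℂ) (L : Set ℝ) (w : ℂ) : Prop :=
  ∀ᵐ x : ℝ, Summable (fun l : L => f (x - l)) ∧ ∑' l : L, f (x - l) = w

/-- Periodic structure: a finite disjoint union of arithmetic progressions `a ℤ + b`. -/
def PeriodicStructure (L : Set ℝ) : Prop :=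
  ∃ (n : ℕ) (a b : Fin n → ℝ), (∀ i, 0 < a i) ∧
    (Pairwise fun i j => Disjoint {x : ℝ | ∃ k : ℤ, x = a i * k + b i}
      {x : ℝ | ∃ k : ℤ, x = a j * k + b j}) ∧
    L = ⋃ i, {x : ℝ | ∃ k : ℤ, x = a i * k + b i}

/-- The Kurasov-Sarnak set `{x | sin (π (1+α) x) = r sin (π (α-1) x)}`. -/
def kurasovSarnak (α r : ℝ) : Set ℝ :=
  {x | Real.sin (Real.pi * ((1 + α) * x)) = r * Real.sin (Real.pi * ((α - 1) * x))}

/-- **Q1 for the Kurasov-Sarnak sets.** -/
theorem result (α r : ℝ) (hα : 0 < α) (hr : |r| < 1) :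
    BoundedDensity (kurasovSarnak α r) ∧
    (PeriodicStructure (kurasovSarnak α r) ↔ ¬ Irrational α ∨ r = 0) ∧
    (¬ PeriodicStructure (kurasovSarnak α r) → ∀ f : ℝ → ℂ, Integrable f → volume {x | f x ≠ 0} < ⊤ → ∀ w : ℂ,
      Tiles f (kurasovSarnak α r) w → f =ᵐ[volume] 0) := by
  have key : Irrational α → r ≠ 0 → ∀ f : ℝ → ℂ, Integrable f → volume {x | f x ≠ 0} < ⊤ → ∀ w : ℂ,
      Tiles f (kurasovSarnak α r) w → f =ᵐ[volume] 0 := fun hirr hr0 =>
    (Pool.Agent.K9h46.TL.ks_all Pool.Agent.K9h46.TL.unic Pool.Agent.K9h46.TL.row Pool.Agent.K9h46.TL.col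
      α r hα hirr hr hr0).2
  have hper : ¬ Irrational α ∨ r = 0 → PeriodicStructure (kurasovSarnak α r) :=
    fun h => Pool.Agent.K9h46.TL.ks_per α r hα hr h
  refine ⟨Pool.Agent.K9h46.TL.ks_bd α r hα hr, ⟨fun h => ?_, hper⟩, fun h => ?_⟩
  · by_contra hcon
    push Not at hcon
    exact FMT.not_periodic _ (key hcon.1 hcon.2) h
  · have h1 : ¬ (¬ Irrational α ∨ r = 0) := fun h' => h (hper h')
    push Not at h1
    exact key h1.1 h1.2

end Pool.Agent.Results.MP_731e7b_an.AllKurasovSarnakSets
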