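import Pool.Agent.K9h46.TL.Main

/-!
# Tilings by functions with finite-measure support: a criterion with one-sided spectral information

Let `L` be a set of bounded density and let `s`, `a`, `b` be real, `a, b ≠ 0`, `a / b` irrational. Suppose that in every row
and in every column of the quadrant `{s + a m + b n : m, n ≥ 1}` the exponential means of `L` tend to zero at only finitely
many places. Then no nonzero integrable function whose support has finite measure tiles with `L` at any level.

Proof. The Fourier transform of `f` is zero at almost the whole quadrant (let `s = 0`, `a, b > 0`). The functions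
`P_n(x) = ∑_k f(x + k/a) e(-b n (x + k/a))` have a one-sided spectrum, up to a shift. The Hankel determinants of size `r` of
the `P_n(x)` are zero if `r` is larger than the number `N(x)` of the `k` with `f(x + k/a) ≠ 0`, and different from zero if
`r = N(x)`; and they are, as polynomials in boundary values of analytic functions, zero almost everywhere or almost
nowhere. Hence `N(x)` is constant, and `a` times the measure of the support is an integer; so is `b` times the measure.
-/

set_option autoImplicit false

open MeasureTheory Filter Topology Complex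

namespace Pool.Agent.Results.MP_731e7b_an.QuadrantCriterion

/-- Bounded density: `[x, x+1)` contains at most `C` points of `L`, for every real `x`. -/
def BoundedDensity (L : Set ℝ) : Prop :=
  ∃ C : ℕ, ∀ x : ℝ, (L ∩ Set.Ico x (x + 1)).Finite ∧ (L ∩ Set.Ico x (x + 1)).ncard ≤ C

/-- `f` tiles at level `w` with translation set `L`. -/
def Tiles (f : ℝ → ℂ) (L : Set ℝ) (w : ℂ) : Prop :=
  ∀ᵐ x : ℝ, Summable (fun l : L => f (x - l)) ∧ ∑' l : L, f (x - l) = w

/-- The mean `(1/T) ∑_{l ∈ L ∩ [0,T)} exp(-2 π i s l)`. -/
noncomputable def expMean (L : Set ℝ) (s : ℝ) (T : ℕ) : ℂ :=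
  (1 / (T : ℂ)) * ∑ᶠ l ∈ L ∩ Set.Ico (0 : ℝ) T, Complex.exp (-(2 * Real.pi * s * l : ℝ) * I)

/-- **Quadrant criterion.** -/
theorem result (L : Set ℝ) (hL : BoundedDensity L) (s a b : ℝ) (ha : a ≠ 0) (hb : b ≠ 0) (hab : Irrational (a / b))
    (hrow : ∀ m : ℕ, 1 ≤ m → {n : ℕ | 1 ≤ n ∧ Tendsto (expMean L (s + a * m + b * n)) atTop (𝓝 0)}.Finite)
    (hcol : ∀ n : ℕ, 1 ≤ n → {m : ℕ | 1 ≤ m ∧ Tendsto (expMean L (s + a * m + b * n)) atTop (𝓝 0)}.Finite)
    (f : ℝ → ℂ) (hf : Integrable f) (hs : volume {x | f x ≠ 0} < ⊤) (w : ℂ) (ht : Tiles f L w) :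
    f =ᵐ[volume] 0 :=
  Pool.Agent.K9h46.TL.critg Pool.Agent.K9h46.TL.unigen L hL s a b ha hb hab hrow hcol f hf hs w ht

end Pool.Agent.Results.MP_731e7b_an.QuadrantCriterion
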